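import Mathlib
import Pool.Agent.R419.CE.Pure

/-!
# Beilinson's conjecture on the rank of the Chow group for `y² + y = x³` over pure cubic fields

Here `i = 0` and `X = E`, so that `CH¹(X)_0 = E(k)`, and both sides of the conjecture are `0`.

`E` is the curve `y² + y = x³` and `N = a b²` runs through all the cube-free numbers, prime to `3` and
not `±1` modulo `9`, which are divisible by exactly one prime `2` modulo `3` (and by any number of
primes `1` modulo `3`).  Let `k = ℚ(∛N)`.  The class is closed under `a b² ↦ a² b`, and every pure cubic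
field `ℚ(∛N)` with `N` in the class comes from exactly two of its elements, `a b²` and `a² b`, so these
are all the fields `ℚ(∛(a b²))` (the library had the ones with `b = 1`; none of this is needed below).

* `L(E / k, s)` is continued to an entire function for all these `N`.
* If `N` has no splitting `d₀ d₁ d₂` (a condition on the cubic residue symbols of the primes that
  divide `N`), then `L(E / k, 1) ≠ 0`, the group `E(k)` is finite, and `3` kills the `3`-primary part
  of `Ш(E / k)`.
* This is the case for at least the proportion `∏_{i ≥ 1} (1 - 3^{-i}) - ε` of the `N`, and the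
  product is greater than `0.56`.

The group `Sha` of the library is the group of the continuous cocycles of the absolute Galois group
of `k` with values in the points over an algebraic closure of `k` that are coboundaries at all the
places, modulo the coboundaries.

The extension to cube-free `N` (the proportion `Pool/Agent/R419/CF`, the arithmetic over the fields
`Pool/Agent/R419/CE`) is by helper419; it is built on the joint work on squarefree `N`: projects CX
(see `Pool/Agent/Y703/CX/Fin.lean`), CT, CTK, CTE, CTP (see the headers of `Pool/Agent/Y703/CT` and of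
the files imported by `Pool/Agent/Y696/CTK/Fin.lean`, `Pool/Agent/Y696/CTE/Fin.lean` and
`Pool/Agent/Y696/CTP/Fin0.lean`).
-/

set_option autoImplicit false

namespace Pool.Agent.Results.MP_6dc9d1_nt.AllPureCubicFields

open NumberField WeierstrassCurve
open Pool.Agent.TH841.NF.D (Sha)
open scoped Classical

/-- The curve `E : y² + y = x³` over `k`. -/
def curve (k : Type) [Field k] : WeierstrassCurve k := ⟨0, 0, 1, 0, 0⟩

/-- `N` is not zero, not divisible by the cube of a prime, not divisible by `3`, not `±1` modulo `9`,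
and divisible by exactly one prime that is `2` modulo `3`. -/
def InClass (N : ℕ) : Prop :=
  N ≠ 0 ∧ (∀ p : ℕ, p.Prime → ¬ p ^ 3 ∣ N) ∧ ¬ 3 ∣ N ∧ N % 9 ≠ 1 ∧ N % 9 ≠ 8 ∧
    ∃ q : ℕ, q.Prime ∧ q % 3 = 2 ∧ q ∣ N ∧ ∀ p : ℕ, p.Prime → p ∣ N → p ≠ q → p % 3 = 1

/-- In every factorization of `N` in coprime factors `d₀ d₁ d₂` for which `d₁ d₂²`, `d₂ d₀²`,
`d₀ d₁²` are cubes modulo the primes dividing `d₀`, `d₁`, `d₂` respectively, two factors are `1`. -/
def HasNoSplitting (N : ℕ) : Prop :=
  ∀ d : ZMod 3 → ℕ, ∏ c, d c = N → (∀ c c', c ≠ c' → Nat.Coprime (d c) (d c')) →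
    (∀ (c : ZMod 3) (p : ℕ), p.Prime → p ∣ d c →
      ∃ x : ℤ, (p : ℤ) ∣ (d (c + 1) : ℤ) * (d (c + 2) : ℤ) ^ 2 - x ^ 3) →
    ∃ c, ∀ c', c' ≠ c → d c' = 1

/-- There is an entire function equal to `L(E / k, s)` for `Re s > 3 / 2`. -/
def HasEntireL (k : Type) [Field k] [NumberField k] : Prop :=
  ∃ Lk : ℂ → ℂ, Differentiable ℂ Lk ∧
    ∀ s : ℂ, 3 / 2 < s.re →
      LSeriesSummable ((fun n : ℤ => (n : ℂ)) ∘ (curve k).LFunction) s ∧
        Lk s = (curve k).LSeries s

/-- There is an entire function equal to `L(E / k, s)` for `Re s > 3 / 2`, its value at `1` is not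
zero, `E(k)` is finite (so both the analytic rank and the rank are `0`), and every element of the
`3`-primary part of `Ш(E / k)` is killed by `3`. -/
def RankZero (k : Type) [Field k] [NumberField k] : Prop :=
  (∃ Lk : ℂ → ℂ, Differentiable ℂ Lk ∧
    (∀ s : ℂ, 3 / 2 < s.re →
      LSeriesSummable ((fun n : ℤ => (n : ℂ)) ∘ (curve k).LFunction) s ∧
        Lk s = (curve k).LSeries s) ∧ Lk 1 ≠ 0) ∧
  Finite (curve k).toAffine.Point ∧
  ∀ (n : ℕ) (x : Sha (curve k)), 3 ^ n • x = 0 → 3 • x = 0

theorem class_iff (N : ℕ) : InClass N ↔ Pool.Agent.Y703.CT.Cls N := by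
  unfold InClass Pool.Agent.Y703.CT.Cls Pool.Agent.Y703.CT.Base
  constructor
  · rintro ⟨h1, h2, h3, h4, h5, h6⟩
    exact ⟨⟨h1, h3, h2⟩, h4, h5, h6⟩
  · rintro ⟨⟨h1, h3, h2⟩, h4, h5, h6⟩
    exact ⟨h1, h2, h3, h4, h5, h6⟩

theorem result :
    (∃ c : ℝ, 0 < c ∧ ∃ X₀ : ℕ, ∀ X : ℕ, X₀ ≤ X →
      c * X / Real.sqrt (Real.log X) ≤ (((Finset.Icc 1 X).filter fun N => InClass N).card : ℝ)) ∧
    (∀ N : ℕ, InClass N →
      (∃ (k : Type) (_ : Field k) (_ : NumberField k) (θ : k),
        Module.finrank ℚ k = 3 ∧ θ ^ 3 = (N : k)) ∧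
      ∀ (k : Type) [Field k] [NumberField k] (θ : k), Module.finrank ℚ k = 3 → θ ^ 3 = (N : k) →
        HasEntireL k ∧ (HasNoSplitting N → RankZero k)) ∧
    (0.56 : ℝ) < ∏' i : ℕ, (1 - (1 / 3 : ℝ) ^ (i + 1)) ∧
    ∀ ε : ℝ, 0 < ε → ∃ X₀ : ℕ, ∀ X : ℕ, X₀ ≤ X →
      ((∏' i : ℕ, (1 - (1 / 3 : ℝ) ^ (i + 1))) - ε) *
          (((Finset.Icc 1 X).filter fun N => InClass N).card : ℝ) ≤
        (((Finset.Icc 1 X).filter fun N => InClass N ∧
          ∀ (k : Type) [Field k] [NumberField k] (θ : k),
            Module.finrank ℚ k = 3 → θ ^ 3 = (N : k) → RankZero k).card : ℝ) := by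
  have e1 : ∀ X : ℕ, (Finset.Icc 1 X).filter (fun N => InClass N) =
      (Finset.Icc 1 X).filter fun N => Pool.Agent.Y703.CT.Cls N := fun X =>
    Finset.filter_congr fun N _ => class_iff N
  have e2 : ∀ X : ℕ, (Finset.Icc 1 X).filter (fun N => InClass N ∧
      ∀ (k : Type) [Field k] [NumberField k] (θ : k), Module.finrank ℚ k = 3 → θ ^ 3 = (N : k) →
        RankZero k) =
      (Finset.Icc 1 X).filter fun N => Pool.Agent.Y703.CT.Cls N ∧
        Pool.Agent.R419.CE.GPc N := fun X => Finset.filter_congr fun N _ =>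
    and_congr (class_iff N) Iff.rfl
  refine ⟨?_, fun N hN => ?_, Pool.Agent.Y461.CX.t_C3.2.2.2, ?_⟩
  · simp only [e1]
    exact Pool.Agent.R419.CF.low
  · have hC := (class_iff N).1 hN
    refine ⟨Pool.Agent.R419.CE.ex_field hC, fun k _ _ θ hd hθ => ?_⟩
    have h := Pool.Agent.R419.CE.law_all hC k θ hd hθ
    exact ⟨h.le, fun hs => h.rz hs⟩
  · simp only [e1, e2]
    exact Pool.Agent.R419.CE.dens_all

end Pool.Agent.Results.MP_6dc9d1_nt.AllPureCubicFields
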