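import Pool.Agent.R898.G

/-!
# Beilinson's conjecture in the middle codimension and the symmetrised Beilinson–Bloch formula

Let `𝒱` be a class of smooth projective varieties over a field (a number field in the problem) which
is closed under products and contains the projective line and the projective plane, for example all
of them; `C` are the Chow groups with rational coefficients and `W` is a Weil cohomology theory (for
example `ℓ`-adic cohomology) with an action `A` of a group `G` (the Galois group). Let `o` be a
function with the formal properties of `o X j m = ord_(s=m) L(H^j(X), s)`: whenever `H^l(Y)` is the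
direct sum of the Galois representations `H^(j i)(X i)(-r i)`, so that
`L(H^l(Y), s) = ∏ L(H^(j i)(X i), s - r i)`, the order of `L(H^l(Y), s)` at `s = m` is the sum of the
orders of the `L(H^(j i)(X i), s)` at `s = m - r i`. (It is presupposed, as in the problem, that these
functions have meromorphic continuations.) We write `r_m(X)` for the dimension of `CH^m(X)_hom` and
`o_m(X)` for the order of `L(H^(2m-1)(X), s)` at `s = m`.

**Theorem.** (1) For each `i` the following are equivalent:
* Beilinson's conjecture for all `X` in `𝒱` of dimension `2i + 1`: `r_(i+1)(X) = o_(i+1)(X)`;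
* the symmetrised conjecture `r_m(X) + r_m'(X) = o_m(X) + o_m'(X)`, for all `m, m'` between `1` and
  `i + 1` and all `X` in `𝒱` of dimension `m + m' - 1`.

(2) In particular Beilinson's conjecture for the varieties of dimension `2i + 3` implies the
conjecture for the varieties of dimension `2i + 1`.

(3) If the hard Lefschetz theorem holds, then the conjecture of Beilinson and Bloch
`r_m(X) = o_m(X)`, for all `X` in `𝒱` and all `m ≥ 1`, is equivalent to Beilinson's conjecture for all
odd dimensions `2i + 1` and the middle codimension `i + 1`, together with the symmetry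
`r_m(X) = r_m'(X)` for `m + m' = dim X + 1`, in which no L-function appears.

(The finiteness of the ranks is part of all these statements.)
-/

open Pool.Agent.H914 Pool.Agent.R903 Pool.Agent.R898

universe u v w

namespace Pool.Agent.Results.MP_6dc9d1_nt.MiddleCodimension

theorem result {k : Type u} [Field k] {𝒱 : VarClass k} {C : ChowTheory.{u, v} 𝒱}
    (W : WeilTheory.{u, v, w} C) (hP : C.Polarized) (hL : ∃ L, G.IsProj C 1 L)
    (hE : ∃ E, G.IsProj C 2 E) {Γ : Type w} [Group Γ] {ψ : Γ →* W.K} (A : G.GalAction W Γ ψ)
    (o : 𝒱.Obj → ℕ → ℤ → ℤ) (ho : G.IsOrder A o) :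
    (∀ i, G.Middle W o i ↔ G.Symmetrised W o i) ∧
      (∀ i, G.Middle W o (i + 1) → G.Middle W o i) ∧
      (G.HardLefschetz W → (G.Full W o ↔ (∀ i, G.Middle W o i) ∧ G.RankSymmetry W)) := by
  obtain ⟨L, hL⟩ := hL
  obtain ⟨E, hE⟩ := hE
  exact ⟨G.middle_iff hP ho hL hE, fun i h => G.middle_pred hP ho hL hE h,
    fun h => G.full_iff hP ho hL hE h⟩

end Pool.Agent.Results.MP_6dc9d1_nt.MiddleCodimension
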