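import Mathlib
import Pool.Agent.Results.MP_6dc9d1_nt.InfiniteAbelianTowers

/-!
# A positive proportion of the abelian fields of prime power exponent has analytic rank zero

`E_i : y² = x³ + a_i x + b_i` (`i = 1, …, m`) are elliptic curves over `ℚ` with `L(E_i, 1) ≠ 0`, given
with their newforms, and `l` is a prime.  A prime `q` is admissible if `q ∤ 2Δ_i` and
`l ∤ #E_i(ℤ/q)` for all `i`.  Let `H` be a group of Dirichlet characters of order dividing `l ^ n` and of
squarefree conductors composed of admissible primes.  To every `r`-tuple `c` of elements of `H` belongs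
an abelian extension `F_c` of `ℚ`, of exponent dividing `l ^ n` and with at most `r` generators.  We call
`c` good if for all number fields `F ⊆ F_c` and all `i` the Hasse-Weil `L`-function `L(E_i/F, s)` is
entire and does not vanish at `s = 1`.

Theorem: there is `V`, which does not depend on `H`, such that `H ^ r` is covered by at most `2 ^ V`
translates of the set of the good tuples.  So the number of the good tuples with conductors `≤ A X` is at
least `2 ^ (-V)` times the number of all tuples with conductors `≤ X`, where `A` depends on `H`.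

The covering is `Pool.Agent.Y18.LP.fields`, a theorem of the starting library that was not handed in.
By Kato's theorem the groups `CH^1(E_i)_0 = E_i(F)` are finite, so that Beilinson's conjecture holds for
the curves `X = E_i` over all these fields `F` (both sides being `0`).
-/

set_option autoImplicit false

open Complex UpperHalfPlane MatrixGroups CongruenceSubgroup NumberField

namespace Pool.Agent.Results.MP_6dc9d1_nt.PositiveProportionAbelianFields

open Pool.Agent.Results.MP_6dc9d1_nt.InfiniteAbelianTowers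

/-- The tuple `c` is good: `L(E_i/F, s)` is entire and `L(E_i/F, 1) ≠ 0` for all `i` and all number
fields `F ⊂ ℂ` that are contained in the field generated by the Gaussian periods of the characters in
the group generated by the `c_j`. -/
def Good {m : ℕ} (a b : Fin m → ℤ) {N : Fin m → ℕ}
    (f : (i : Fin m) → CuspForm (Gamma0 (N i) : Subgroup (GL (Fin 2) ℝ)) 2) {r : ℕ}
    (c : Fin r → Fam) : Prop :=
  ∀ (F : IntermediateField ℚ ℂ) [NumberField F],
    F ≤ IntermediateField.adjoin ℚ {x : ℂ | ∃ d ∈ Subgroup.closure (Set.range c), x = period d} →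
    ∀ i, NonvanishingOver F (a i) (b i) (f i)

lemma supp_mul {c d : Fam} (hc : {q | c q ≠ 1}.Finite) (hd : {q | d q ≠ 1}.Finite) :
    supp (c * d) ⊆ supp c ∪ supp d := by
  have h : {q | (c * d) q ≠ 1}.Finite := by
    refine (hc.union hd).subset fun q hq => ?_
    by_contra h1
    simp only [Set.mem_union, Set.mem_ofPred_eq, not_or, not_not] at h1
    apply hq
    rw [Pi.mul_apply, h1.1, h1.2]; exact one_mul (1 : (ZMod q)ˣ →* ℂˣ)
  intro q hq
  unfold supp at hq ⊢
  rw [dif_pos h, Set.Finite.mem_toFinset] at hq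
  rw [dif_pos hc, dif_pos hd, Finset.mem_union, Set.Finite.mem_toFinset, Set.Finite.mem_toFinset]
  by_contra h1
  simp only [Set.mem_ofPred_eq, not_or, not_not] at h1
  apply hq
  rw [Pi.mul_apply, h1.1, h1.2]; exact one_mul (1 : (ZMod q)ˣ →* ℂˣ)

lemma conductor_mul_le {c d : Fam} (hc : {q | c q ≠ 1}.Finite) (hd : {q | d q ≠ 1}.Finite)
    (hc1 : ∀ q, c q ≠ 1 → q.Prime) (hd1 : ∀ q, d q ≠ 1 → q.Prime) :
    conductor (c * d) ≤ conductor c * conductor d := by
  have hpos : ∀ q ∈ supp c ∪ supp d, 1 ≤ q := by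
    intro q hq
    unfold supp at hq
    rw [dif_pos hc, dif_pos hd, Finset.mem_union, Set.Finite.mem_toFinset,
      Set.Finite.mem_toFinset] at hq
    rcases hq with h | h
    · exact (hc1 q h).one_lt.le
    · exact (hd1 q h).one_lt.le
  unfold InfiniteAbelianTowers.conductor
  calc ∏ q ∈ supp (c * d), q ≤ ∏ q ∈ supp c ∪ supp d, q :=
        Finset.prod_le_prod_of_subset_of_one_le' (supp_mul hc hd) fun q hq _ => hpos q hq
    _ ≤ (∏ q ∈ supp c ∪ supp d, q) * ∏ q ∈ supp c ∩ supp d, q :=
        Nat.le_mul_of_pos_right _ (Finset.prod_pos fun q hq =>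
          hpos q (Finset.mem_union_left _ (Finset.mem_inter.1 hq).1))
    _ = _ := Finset.prod_union_inter

lemma conductor_pos {c : Fam} (hc : {q | c q ≠ 1}.Finite) (hc1 : ∀ q, c q ≠ 1 → q.Prime) :
    0 < conductor c := by
  unfold InfiniteAbelianTowers.conductor supp
  rw [dif_pos hc]
  exact Finset.prod_pos fun q hq => (hc1 q ((Set.Finite.mem_toFinset _).1 hq)).pos

/-- The main part of the theorem. Let `E_i : y² = x³ + a_i x + b_i`, `i = 1, …, m`, be elliptic curves over `ℚ` with
newforms `f_i` and `L(E_i, 1) ≠ 0`, `l` a prime and `n`, `r` integers.  There is `V` such that for every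
group `H` of Dirichlet characters of order dividing `l ^ n` and of squarefree conductors composed of
primes `q ∤ 2 Δ_i` with `l ∤ #E_i(ℤ/q)`:

(1) `H ^ r` contains a set `K` of at most `2 ^ V` tuples such that for each `c ∈ H ^ r` the tuple `c k`
is good for some `k ∈ K`;

(2) for some `A ≥ 1` and all `X` the number of the `c ∈ H ^ r` with conductors at most `X` is at most
`2 ^ V` times the number of the good `c ∈ H ^ r` with conductors at most `A X`. -/
theorem main (m : ℕ) (a b : Fin m → ℤ) (hΔ : ∀ i, 4 * a i ^ 3 + 27 * b i ^ 2 ≠ 0)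
    (N : Fin m → ℕ) (hN : ∀ i, N i ≠ 0)
    (f : (i : Fin m) → CuspForm (Gamma0 (N i) : Subgroup (GL (Fin 2) ℝ)) 2)
    (hf : ∀ i, IsFormOf (a i) (b i) (N i) (f i)) (h0 : ∀ i, AnalyticRankZero (a i) (b i))
    (l n r : ℕ) (hl : l.Prime) :
    ∃ V : ℕ, ∀ H : Subgroup Fam, IsCharGroup a b l n H →
      (∃ K : Finset (Fin r → Fam), K.card ≤ 2 ^ V ∧ (∀ k ∈ K, ∀ j, k j ∈ H) ∧
        ∀ c : Fin r → Fam, (∀ j, c j ∈ H) → ∃ k ∈ K, Good a b f (fun j => c j * k j)) ∧
      (∃ A : ℕ, 1 ≤ A ∧ ∀ X : ℕ,
        {c : Fin r → Fam | ∀ j, c j ∈ H ∧ conductor (c j) ≤ X}.encard ≤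
          2 ^ V * {c : Fin r → Fam | (∀ j, c j ∈ H ∧ conductor (c j) ≤ A * X) ∧
            Good a b f c}.encard) := by
  classical
  have : ∀ i, NeZero (N i) := fun i => ⟨hN i⟩
  obtain ⟨V, hV⟩ := Pool.Agent.Y18.LP.fields m a b hΔ N f
    (fun i => ⟨(hf i).one, (hf i).real, (hf i).mul, (hf i).pow, (hf i).good, (hf i).bad,
      (hf i).fricke, (hf i).points⟩) h0 l n r hl
  refine ⟨V, fun H hH => ?_⟩
  obtain ⟨K, hK1, hK2, hK3⟩ := hV H ⟨hH.pow, hH.finite, hH.admissible⟩
  have hgood : ∀ c : Fin r → Fam, (∀ j, c j ∈ H) → ∃ k ∈ K, Good a b f (fun j => c j * k j) := by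
    intro c hc
    obtain ⟨k, hk, h⟩ := hK3 c hc
    refine ⟨k, hk, fun F _ hF i => nonvanishing_of (h F (hF.trans ?_) i)⟩
    refine IntermediateField.adjoin.mono ℚ _ _ ?_
    rintro x ⟨d, hd, rfl⟩
    obtain ⟨J, rfl⟩ := Pool.Agent.Y18.LP.mem_closure_tuple (pow_pos hl.pos n)
      (fun j => c j * k j) (fun j => hH.pow _ (H.mul_mem (hc j) (hK2 k hk j))) hd
    exact ⟨J, rfl⟩
  have hprime : ∀ c ∈ H, ∀ q, c q ≠ 1 → q.Prime := fun c hc q hq => (hH.admissible c hc q hq).1
  refine ⟨⟨K, hK1, hK2, hgood⟩, ?_⟩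
  -- the constant `A`
  set A : ℕ := 1 + ∑ k ∈ K, ∑ j, conductor (k j) with hA
  have hAk : ∀ k ∈ K, ∀ j, conductor (k j) ≤ A := by
    intro k hk j
    calc conductor (k j) ≤ ∑ j, conductor (k j) :=
          Finset.single_le_sum (f := fun j => conductor (k j)) (fun _ _ => Nat.zero_le _)
            (Finset.mem_univ j)
      _ ≤ ∑ k ∈ K, ∑ j, conductor (k j) :=
          Finset.single_le_sum (f := fun k : Fin r → Fam => ∑ j, conductor (k j))
            (fun _ _ => Nat.zero_le _) hk
      _ ≤ A := by omega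
  refine ⟨A, by omega, fun X => ?_⟩
  set G : Set (Fin r → Fam) := {c : Fin r → Fam | (∀ j, c j ∈ H ∧ conductor (c j) ≤ A * X) ∧
            Good a b f c} with hG
  have hsub : {c : Fin r → Fam | ∀ j, c j ∈ H ∧ conductor (c j) ≤ X} ⊆
      ⋃ k ∈ K, (fun c => c * k⁻¹) '' G := by
    intro c hc
    obtain ⟨k, hk, h⟩ := hgood c (fun j => (hc j).1)
    simp only [Set.mem_iUnion]
    refine ⟨k, hk, c * k, ⟨fun j => ⟨H.mul_mem (hc j).1 (hK2 k hk j), ?_⟩, h⟩, ?_⟩
    · have h1 := conductor_mul_le (hH.finite _ (hc j).1) (hH.finite _ (hK2 k hk j))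
        (hprime _ (hc j).1) (hprime _ (hK2 k hk j))
      calc conductor ((c * k) j) ≤ conductor (c j) * conductor (k j) := h1
        _ ≤ X * A := Nat.mul_le_mul (hc j).2 (hAk k hk j)
        _ = A * X := mul_comm _ _
    · exact mul_inv_cancel_right c k
  have hle : ∀ K' : Finset (Fin r → Fam),
      (⋃ k ∈ K', (fun c : Fin r → Fam => c * k⁻¹) '' G).encard ≤ K'.card * G.encard := by
    intro K'
    induction K' using Finset.induction_on with
    | empty => simp
    | insert k K' hk ih =>
      rw [Finset.set_biUnion_insert, Finset.card_insert_of_notMem hk]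
      refine (Set.encard_union_le _ _).trans ?_
      push_cast
      rw [add_mul, one_mul, add_comm]
      exact add_le_add ih (Set.encard_image_le _ _)
  calc _ ≤ _ := Set.encard_le_encard hsub
    _ ≤ _ := hle K
    _ ≤ _ := by
        gcongr
        exact_mod_cast hK1

/-- **Theorem.** (A) Let `E_i : y² = x³ + a_i x + b_i`, `i = 1, …, m`, be elliptic curves over `ℚ` with
newforms `f_i` and `L(E_i, 1) ≠ 0`, `l` a prime and `n`, `r` integers.  There is `V` such that for every
group `H` of Dirichlet characters of order dividing `l ^ n` and of squarefree conductors composed of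
primes `q ∤ 2 Δ_i` with `l ∤ #E_i(ℤ/q)`:

(1) `H ^ r` contains a set `K` of at most `2 ^ V` tuples such that for each `c ∈ H ^ r` the tuple `c k`
is good for some `k ∈ K`;

(2) for some `A ≥ 1` and all `X` the number of the `c ∈ H ^ r` with conductors at most `X` is at most
`2 ^ V` times the number of the good `c ∈ H ^ r` with conductors at most `A X`.

(B) The curve `X_0(11) : y² = x³ - 13392 x - 1080432` has a newform, of level 11, and
`L(X_0(11), 1) ≠ 0`. -/
theorem result :
    (∀ (m : ℕ) (a b : Fin m → ℤ), (∀ i, 4 * a i ^ 3 + 27 * b i ^ 2 ≠ 0) →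
      ∀ N : Fin m → ℕ, (∀ i, N i ≠ 0) →
      ∀ f : (i : Fin m) → CuspForm (Gamma0 (N i) : Subgroup (GL (Fin 2) ℝ)) 2,
      (∀ i, IsFormOf (a i) (b i) (N i) (f i)) → (∀ i, AnalyticRankZero (a i) (b i)) →
      ∀ l n r : ℕ, l.Prime → ∃ V : ℕ, ∀ H : Subgroup Fam, IsCharGroup a b l n H →
        (∃ K : Finset (Fin r → Fam), K.card ≤ 2 ^ V ∧ (∀ k ∈ K, ∀ j, k j ∈ H) ∧
          ∀ c : Fin r → Fam, (∀ j, c j ∈ H) → ∃ k ∈ K, Good a b f (fun j => c j * k j)) ∧
        (∃ A : ℕ, 1 ≤ A ∧ ∀ X : ℕ,
          {c : Fin r → Fam | ∀ j, c j ∈ H ∧ conductor (c j) ≤ X}.encard ≤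
            2 ^ V * {c : Fin r → Fam | (∀ j, c j ∈ H ∧ conductor (c j) ≤ A * X) ∧
              Good a b f c}.encard)) ∧
    ((∃ f : CuspForm (Gamma0 11 : Subgroup (GL (Fin 2) ℝ)) 2,
      IsFormOf (-13392) (-1080432) 11 f) ∧ AnalyticRankZero (-13392) (-1080432)) :=
  ⟨fun m a b hΔ N hN f hf h0 l n r hl => main m a b hΔ N hN f hf h0 l n r hl,
    InfiniteAbelianTowers.result.2⟩

end Pool.Agent.Results.MP_6dc9d1_nt.PositiveProportionAbelianFields
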