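import Pool.Agent.R898.PMain

/-!
# Beilinson's conjecture for products of curves, regular surfaces and complete intersections

Let `𝒱` be a class of smooth projective varieties over a field (a number field in the problem) which
is closed under products and contains the projective spaces, `C` their Chow groups with rational
coefficients and `W` a Weil cohomology theory. We call a variety `X` elementary if outside of the
degree `dim X` its cohomology consists of the multiples of the powers of a divisor class, as for a
projective space: all curves, all regular surfaces and all complete intersections of positive
dimension are elementary. We assume that every variety in `𝒱` is dominated by a product of elementary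
varieties; for example `𝒱` may be the class of all the varieties dominated by products of curves,
which contains the abelian varieties, the Fermat hypersurfaces, ...

Let `o` be a function with the formal properties of
`o X p n = ord_(s=n+1) L(H^(2n+1)(M), s)` for the motives `M = (X, p)`: it is additive and depends only
on the isomorphism class of `H^(2n+1)(M)` up to Tate twists. We write
`r_m(X)` for the dimension of `CH^m(X)_hom` and `o_m(X)` for the order of `L(H^(2m-1)(X), s)` at
`s = m`.

**Theorem.** (1) For the products `X` of elementary varieties Beilinson's conjecture, that is
`r_(i+1)(X) = o_(i+1)(X)` if `dim X = 2i + 1`, implies the formula of Beilinson and Bloch in all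
codimensions, `r_m(X) = o_m(X)` for all `m ≥ 1`.

(2) It also implies that there is a Bloch–Beilinson filtration `F` on the Chow groups of all the
varieties in `𝒱`, and that `F^2 = 0`: every correspondence between two varieties in `𝒱` which acts as
zero on `H^(2m-1)` acts as zero on `CH^m_hom`. In particular `CH^m(M)_hom` is determined by
`H^(2m-1)(M)`, for all motives `M`, and all the products of two homologically trivial classes vanish.

(3) If Beilinson's conjecture holds for all the varieties in `𝒱`, then the formula holds in all
codimensions for all `X` in `𝒱` which satisfy the standard conjecture of Lefschetz type in odd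
degrees.

No standard conjecture, no finite-dimensionality of motives and no nilpotence is assumed, and the
conjecture is used only for varieties, not for motives. (The finiteness of the ranks is part of the
formulas.)
-/

open Pool.Agent.H914 Pool.Agent.R903 Pool.Agent.R898

universe u v w

namespace Pool.Agent.Results.MP_6dc9d1_nt.ProductsOfCurves

theorem result {k : Type u} [Field k] {𝒱 : VarClass k} {C : ChowTheory.{u, v} 𝒱}
    (W : WeilTheory.{u, v, w} C) (hPol : C.Polarized) (hP : ∀ s, ∃ P, G.IsProj C s P)
    (hdom : ∀ X, ∃ Z, P.IsProduct W Z ∧ P.Dominates C Z X)
    (o : ∀ X : 𝒱.Obj, C.CH (X.prod X) → ℕ → ℤ) (ho : P.IsOrder W o) :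
    (P.Middle W o (P.IsProduct W) ↔ P.Full W o (P.IsProduct W)) ∧
      (P.Middle W o (P.IsProduct W) →
        (∃ F', F.IsBB W F') ∧ F.Determined W ∧ F.NoProducts W) ∧
      (P.Middle W o (fun _ => True) → P.Full W o (P.OddLefschetz W)) := by
  refine ⟨⟨fun hM => P.full_product hPol hP ho hM, fun h X i hX _ => h X i hX⟩, fun hM => ?_,
    fun hM X n hX => ?_⟩
  · have h := P.twoStep hPol hP ho hM hdom
    exact ⟨⟨fil2 W, isBB_of_twoStep hPol h⟩, h.determined, h.noProducts hPol⟩
  · have h := P.twoStep hPol hP ho (fun X i _ hd => hM X i trivial hd) hdom
    exact P.full_lefschetz hPol hP ho hM h hX n

end Pool.Agent.Results.MP_6dc9d1_nt.ProductsOfCurves
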